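import Pool.Agent.H18.Adj.Final

/-!
# Abundance for fibrations in log canonical complete intersections over any base

Let `B` be any complex manifold, let `E` be any holomorphic vector bundle on `B`, and let `Y → B` be
the projective bundle of `E`, or the bundle of the partial flags of some given type in the fibres of
`E`, or more generally a bundle of flag varieties with the structure group `PGL_q`. Let `X ⊂ Y` be a
smooth complete intersection of hypersurfaces `Z_1, ..., Z_r ⊂ Y`, of arbitrary classes. We assume
that `K_Y + ∑ Z_t` is nef on the fibres of `Y → B`, and that for all `p ∈ B` the pair formed by the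
fibre `Y_p` and the divisor `∑ (Z_t)_p` is log canonical. Then:

(1) a power `K_{X/B} ^ N` of the relative canonical bundle is globally generated, where `N` depends
only on the type of the flags and on the degrees of the `Z_t` on the fibres;

(2) if `K_B` is semiample, then `K_X` is semiample.

For example, let `X ⊂ P(E)` be a smooth hypersurface of degree `d` on the fibres, where `E` has the
rank `q`. If `d < q` then `K_X` is not nef. If `d ≥ q`, if all fibres `X_p` are log canonical
hypersurfaces (for example all fibres are smooth or have only nodes), and if `K_B` is semiample, then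
`K_X` is semiample. Here `B`, the bundle `E` and the moduli of the fibres are arbitrary. By
abundance in the dimensions up to three it suffices that `K_B` is nef, if `B` is a compact Kähler
manifold of dimension at most three.

For more general families of canonically polarized varieties the first assertion is not known, and
its analogue for families of stable pointed curves is false (Keel).
-/

set_option autoImplicit false

universe u v w x

namespace Pool.Agent.Results.MP_97d78d_ag.CompleteIntersectionFibrations

open MvPolynomial Q47.FL H18.GIT H18.Adj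
open scoped Manifold ContDiff

/-- Let `b` be a type of flags in `ℂ^q` and let `d 1, ..., d r` be weights such that the line bundle
`O(∑ d t - anti)` on the flag variety is nef. There is `N ≥ 1`, which depends only on these data, with
the following property. Let `Y → B` be a bundle of flag varieties over a complex manifold `B`, and
let `F t`, `e t` for `t = 1, ..., r` define hypersurfaces `Z t` in `Y` of the weights `d t` on the
fibres, such that for all points `p` of `B` the pair formed by the flag variety and the divisor
`∑ (Z t)_p` is log canonical. Let `X` be a complex manifold and let `h : X → Y` be an immersion onto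
a complete intersection of the `Z t` (for example the embedding of this complete intersection), and
let `π : X → B` be its composition with the projection. Then:

(1) for each point `p` of `X` there is a section of `K_{X/B} ^ N` which does not vanish at `p`;

(2) if `N' ≥ 1` and `K_B ^ N'` is globally generated, then `K_X ^ (N N')` is globally generated. -/
theorem result {q : ℕ} {b : Fin q → ℕ} (hb : Monotone b) {r : ℕ} (d : Fin r → ℕ → ℕ)
    (hnef : IsFibreNef b fun j => ∑ t, (d t (b j) : ℤ) - anti b j) :
    ∃ N : ℕ, 1 ≤ N ∧ ∀ (n : ℕ) (B : Type u) [TopologicalSpace B] [ChartedSpace (Fin n → ℂ) B]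
      [IsManifold 𝓘(ℂ, Fin n → ℂ) ω B] (ι : Type v) (Y : FlagBundle n B q ι)
      (F : Fin r → ι → B → MvPolynomial (Fin q × Fin q) ℂ) (e : Fin r → ι → ι → B → ℂ),
      (∀ t, Y.IsDivisor b (d t) (F t) (e t)) →
      (∀ i, ∀ p ∈ Y.U i, IsLogCanonical b 1 (∏ t, F t i p)) →
      ∀ (k : ℕ) (X : Type w) [TopologicalSpace X] [ChartedSpace (Fin k → ℂ) X]
        [IsManifold 𝓘(ℂ, Fin k → ℂ) ω X] (κ : Type x) (h : FlagMap Y b k X κ),
        h.IsCompleteIntersection F →
        (∀ p : X, ∃ s, IsRelativeForm h.π N s ∧
          s (chartAt (Fin k → ℂ) p) (chartAt (Fin n → ℂ) (h.π p)) p ≠ 0) ∧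
        ∀ N' : ℕ, 1 ≤ N' → IsGloballyGenerated n B N' → IsGloballyGenerated k X (N * N') := by
  obtain ⟨N, hN, hN2⟩ := relative.{u, v} hb (m := 1) le_rfl (d := fun j => ∑ t, d t j) (by
    intro i j hij
    have h1 := hnef i j hij
    push_cast
    linarith)
  refine ⟨N, hN, fun n B _ _ _ ι Y F e hF hlc k X _ _ _ κ h hci => ?_⟩
  obtain ⟨θ⟩ := exists_theta h hci
  have h1 : ∀ p : X, ∃ s, IsRelativeForm h.π N s ∧
      s (chartAt (Fin k → ℂ) p) (chartAt (Fin n → ℂ) (h.π p)) p ≠ 0 := by
    intro p
    obtain ⟨a, ha⟩ := h.cover p
    obtain ⟨G, hG, hne⟩ := hN2 n B ι Y _ _ (isDivisor_prod hF) (h.idx a) (h.π p) (h.mem a p ha)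
      (hlc _ _ (h.mem a p ha)) (h.g a p) (h.det_ne_zero a p ha)
    exact ⟨_, isRelativeForm θ hb hF hci hG, rform_ne_zero θ hb hF hci hG ha (chart_mem_atlas _ _)
      (mem_chart_source _ _) (chart_mem_atlas _ _) (mem_chart_source _ _) hne⟩
  refine ⟨h1, fun N' _ hB p => ?_⟩
  obtain ⟨S, hS, hSp⟩ := h1 p
  obtain ⟨s, hs, hsp⟩ := hB (h.π p)
  exact ⟨_, isCanonicalForm_mul h.holo_π hS hs, mul_ne_zero (pow_ne_zero _ hSp)
    (pow_ne_zero _ hsp)⟩

end Pool.Agent.Results.MP_97d78d_ag.CompleteIntersectionFibrations
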