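import Pool.Agent.H18.Adj.Cover

/-!
# Abundance for fibrations in crepant covers of flag varieties over any base

Let `B` be any complex manifold and let `Y → B` be the projective bundle, or the bundle of the
partial flags of some given type, of any holomorphic vector bundle `E` on `B` (or more generally a
bundle of flag varieties with the structure group `PGL_q`). Let `h : X → Y` be a generically finite
holomorphic map of complex manifolds of the same dimension, for example a covering which is
branched along a divisor `D ⊂ Y`, or a crepant resolution of the singularities of such a covering,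
and let the effective `ℚ`-divisor `Δ` be such that `K_X = h^* (K_Y + Δ)` (for the covering,
`Δ = ∑ (1 - 1 / m_i) D_i`). We assume that `K_X` is nef on the fibres in the form that `K_Y + Δ` is
nef on the fibres of `Y → B`, and that for all `p ∈ B` the pair `(Y_p, Δ_p)` is log canonical. Then:

(1) a power `K_{X/B} ^ (m N)` of the relative canonical bundle is globally generated, where `m Δ` is
integral and `N` depends only on the type of the flags, on `m` and on the degree of `Δ` on the
fibres;

(2) if `K_B` is semiample, then `K_X` is semiample.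

For example `X` may be a double covering of a `P^1`-, `P^2`-, or `P^3`-bundle `P(E)` which is
branched along a divisor of the degree `≥ 4`, `≥ 6` or `≥ 8` on the fibres, whose fibres have only
singularities such that one half of them is log canonical. The base `B`, the bundle `E` and the
moduli of the fibres are arbitrary.
-/

set_option autoImplicit false

universe u v w x

namespace Pool.Agent.Results.MP_97d78d_ag.CrepantCoverFibrations

open MvPolynomial Q47.FL H18.GIT H18.Adj
open scoped Manifold ContDiff

/-- Let `b` be a type of flags in `ℂ^q`, let `m ≥ 1`, and let `d` be a weight, such that the line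
bundle `O(d - m anti)` on the flag variety is nef. There is `N ≥ 1`, which depends only on `b`, `m`
and `d`, with the following property. Let `Y → B` be a bundle of flag varieties over a complex
manifold `B`, and let `F`, `e` define an effective divisor `m Δ` on `Y`, which has the weight `d` on
the fibres and such that all fibres of `(Y, Δ)` over `B` are log canonical. Let `X` be a complex
manifold and let `h : X → Y` be a holomorphic map, generically finite, with `K_X = h^* (K_Y + Δ)`,
and let `π : X → B` be its composition with the projection. Then: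

(1) for each point `p` of `X` there is a section of `K_{X/B} ^ (m N)` which does not vanish at `p`;

(2) if `N' ≥ 1` and `K_B ^ N'` is globally generated, then `K_X ^ (m N N')` is globally
generated. -/
theorem result {q : ℕ} {b : Fin q → ℕ} (hb : Monotone b) {m : ℕ} (hm : 1 ≤ m) {d : ℕ → ℕ}
    (hnef : IsFibreNef b fun j => d (b j) - m * anti b j) :
    ∃ N : ℕ, 1 ≤ N ∧ ∀ (n : ℕ) (B : Type u) [TopologicalSpace B] [ChartedSpace (Fin n → ℂ) B]
      [IsManifold 𝓘(ℂ, Fin n → ℂ) ω B] (ι : Type v) (Y : FlagBundle n B q ι)
      (F : ι → B → MvPolynomial (Fin q × Fin q) ℂ) (e : ι → ι → B → ℂ), Y.IsDivisor b d F e →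
      (∀ i, ∀ p ∈ Y.U i, IsLogCanonical b m (F i p)) →
      ∀ (k : ℕ) (X : Type w) [TopologicalSpace X] [ChartedSpace (Fin k → ℂ) X]
        [IsManifold 𝓘(ℂ, Fin k → ℂ) ω X] (κ : Type x) (h : FlagMap Y b k X κ)
        (θ : ((Fin n → ℂ) × (Low b → ℂ)) ≃ₗ[ℂ] (Fin k → ℂ)), h.IsCrepant θ m F →
        (∀ p : X, ∃ s, IsRelativeForm h.π (m * N) s ∧
          s (chartAt (Fin k → ℂ) p) (chartAt (Fin n → ℂ) (h.π p)) p ≠ 0) ∧
        ∀ N' : ℕ, 1 ≤ N' → IsGloballyGenerated n B N' → IsGloballyGenerated k X (m * N * N') := by
  obtain ⟨N, hN, hN2⟩ := relative.{u, v} hb hm hnef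
  refine ⟨N, hN, fun n B _ _ _ ι Y F e hF hlc k X _ _ _ κ h θ hc => ?_⟩
  have h1 : ∀ p : X, ∃ s, IsRelativeForm h.π (m * N) s ∧
      s (chartAt (Fin k → ℂ) p) (chartAt (Fin n → ℂ) (h.π p)) p ≠ 0 := by
    intro p
    obtain ⟨a, ha⟩ := h.cover p
    obtain ⟨G, hG, hne⟩ := hN2 n B ι Y _ _ hF (h.idx a) (h.π p) (h.mem a p ha)
      (hlc _ _ (h.mem a p ha)) (h.g a p) (h.det_ne_zero a p ha)
    exact ⟨_, isRelativeForm_crepant hb hF hc hG, crform_ne_zero hb hF hc hG ha
      (chart_mem_atlas _ _) (mem_chart_source _ _) (chart_mem_atlas _ _) (mem_chart_source _ _) hne⟩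
  refine ⟨h1, fun N' _ hB p => ?_⟩
  obtain ⟨S, hS, hSp⟩ := h1 p
  obtain ⟨s, hs, hsp⟩ := hB (h.π p)
  exact ⟨_, isCanonicalForm_mul h.holo_π hS hs, mul_ne_zero (pow_ne_zero _ hSp)
    (pow_ne_zero _ hsp)⟩

end Pool.Agent.Results.MP_97d78d_ag.CrepantCoverFibrations
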