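import Pool.Agent.H18.HK.Prod

/-!
# Abundance for Kähler fibrations in products of complex tori and hyperkähler manifolds over any base

Let `B` be a compact connected complex manifold, let `A → B` be a smooth family of complex tori, not
necessarily algebraic and not necessarily with a section, and let `S_l → B`, for `l` in a finite set, be
smooth families of compact Kähler manifolds with exactly one holomorphic two-form up to constant factors,
for instance K3 surfaces or hyperkähler manifolds of dimension `2 (e l)`. Let these families have real
polarizations. For instance, the total space `Y` of their fibre product may be a compact Kähler manifold,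
with the class of the Kähler form; the class need not be rational. Then:

(1) the line bundles `λ_A = K_{A/B}` and `λ_l`, the line bundle of the two-forms of `S_l → B`, on `B` are
semiample;

(2) if `K_B` is semiample, then `K_Y` is semiample, if the fibres of all `S_l` are hyperkähler manifolds,
and `K_X` is semiample for every complex manifold `X` with a holomorphic map `π : X → B` such that `K_X ^ m`
is the inverse image of `(K_B ⊗ λ_A ⊗ (⨂ λ_l ^ (e l))) ^ m` for some `m ≥ 1`, for example for every manifold
which is étale over `Y`.

By the theorem of Beauville and Bogomolov the products of complex tori and hyperkähler manifolds are, up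
to finite étale coverings, the compact Kähler manifolds with `c_1 = 0` without Calabi-Yau factors. By
abundance in the dimensions up to three it suffices in (2) that `K_B` is nef, if `B` is a compact Kähler
manifold of dimension at most three. For projective families and rational polarizations the assertion (1)
follows from the theory of automorphic forms. Here the polarizations are real, and the fibres need not be
algebraic.

Idea of the proof. Let `Ω` be the real polarization of a family of tori, or the real symmetric form of the
second kind of family. A `ℚ`-linear map `φ : ℝ → ℚ` which is nearly the identity on the entries of `Ω`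
gives a flat rational form `Ω' = φ(Ω)`, which is not of type `(1, 1)` in general. The flat endomorphism
`Ω⁻¹ Ω'` is near the identity and has a square root which is a polynomial in it, hence flat and
selfadjoint. The twisted periods have the rational polarization `Ω'`, and the family with these periods
has the same line bundle. For tori the Eisenstein series over the isotropic integral multivectors are
sections of the powers of `λ_A`. For the families with one two-form the real class `κ` remains. If there is
an integral vector orthogonal to `κ` of positive length `m`, then the series `∑ S(σ, v) ^ (-k)` over all of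
them are sections of the powers of `λ_l`; otherwise the smallest rational subspace `W` with `κ ∈ W ⊗ ℝ`
is so large that `W ⊗ ℝ` contains a vector `u ≠ 0` orthogonal to `κ` with `S(u, u) ≥ 0`. The monodromy fixes
`u`, and `S(σ, u)` has no zeros, so `λ_l` is trivial.
-/

set_option autoImplicit false

universe u v w x y

namespace Pool.Agent.Results.MP_97d78d_ag.KaehlerTorusFibrations

open H18.TF H18.HK
open scoped Manifold ContDiff

/-- Let `A → B` be a smooth family of complex tori of dimension `g` with a real polarization `Ω` over
the compact connected complex manifold `B`, and let `S_l → B` be finitely many smooth families of compact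
Kähler manifolds with one holomorphic two-form, with real polarizations. There is `N ≥ 1` with the
following properties.

(1) The line bundles `λ_A ^ N`, where `λ_A = K_{A/B}`, and `λ_l ^ N`, where `λ_l` is the line bundle of the
two-forms of the `l`-th family, are globally generated.

(2) Let `π : X → B` be a holomorphic map from a complex manifold `X` to `B` and let `τ` be an isomorphism
of the inverse image of `(K_B ⊗ λ_A ⊗ (⨂ λ_l ^ (e l))) ^ m` and `K_X ^ m` for some `m ≥ 1` (for instance,
the `l`-th family consists of hyperkähler manifolds of dimension `2 (e l)` and `X` is the fibre product of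
`A` and the `S_l` over `B`). If `N' ≥ 1` and `K_B ^ N'` is globally generated, then `K_X ^ (m N N')` is
globally generated. -/
theorem result {n g : ℕ} {B : Type u} [TopologicalSpace B] [ChartedSpace (Fin n → ℂ) B]
    [IsManifold 𝓘(ℂ, Fin n → ℂ) ω B] [CompactSpace B] [ConnectedSpace B] {ι : Type v}
    (Y : TorusBundle n B g ι) {Ω : ι → B → Matrix (Fin (2 * g)) (Fin (2 * g)) ℝ}
    (hΩ : Y.IsPolarization Ω) {L : Type y} [Fintype L] {r : L → ℕ}
    (P : ∀ l, PeriodFamily n B (r l) ι) (hU : ∀ l i, (P l).U i = Y.U i)
    {S : ∀ l, ι → B → Matrix (Fin (r l)) (Fin (r l)) ℝ} {κ : ∀ l, ι → B → Fin (r l) → ℝ}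
    (hP : ∀ l, (P l).IsPolarization (S l) (κ l)) :
    ∃ N : ℕ, 1 ≤ N ∧
      (∀ p, ∃ s, Y.IsSection N s ∧ ∀ i, p ∈ Y.U i → s i p ≠ 0) ∧
      (∀ l, (P l).IsGeneratedOf (P l).t N Set.univ) ∧
      ∀ (e : L → ℕ) (k : ℕ) (X : Type w) [TopologicalSpace X] [ChartedSpace (Fin k → ℂ) X]
        [IsManifold 𝓘(ℂ, Fin k → ℂ) ω X] (α : Type x) (h : BaseMap (n := n) Y.U k X α) (m : ℕ)
        (τ : α → OpenPartialHomeomorph X (Fin k → ℂ) → X → ℂ), 1 ≤ m →
        h.IsPullback (fun i j p => relativeCanonical Y P e i j p ^ m) m τ →
        ∀ N' : ℕ, 1 ≤ N' → IsGloballyGenerated n B N' →
          IsGloballyGenerated k X (m * (N * N')) := by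
  obtain ⟨N, hN, h0, h1⟩ := exists_common hΩ hP
  exact ⟨N, hN, h0, h1, fun e k X _ _ _ α h m τ _ hτ N' _ hB =>
    isGloballyGenerated_prod hU e h0 h1 hB hτ⟩

end Pool.Agent.Results.MP_97d78d_ag.KaehlerTorusFibrations
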