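import Pool.Agent.H18.TF.Div3

/-!
# Abundance for manifolds over a torus fibration: effective divisors are semiample

Let `A → B` be a smooth family of complex tori over a complex manifold `B`, not necessarily algebraic
and not necessarily with a section, and let `D` be an effective divisor on `A` which does not contain
a fibre; it may be arbitrarily singular. Let `Z` be a compact subset of `B`, for instance `Z = B` if `B`
is compact. Then:

(1) `O(D)` is semiample over `Z`: some power is generated by its global sections at all points over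
`Z`;

(2) if `X` is a complex manifold with a holomorphic map `h : X → A` to the part of `A` over `Z`, and
`K_X ^ m = h^* (M ⊗ O(D))` for a line bundle `M` on `B` which is semiample at the points of `Z`, then
`K_X` is semiample;

(3) if `B` is connected and the family has a real polarization, for instance if `A` is a Kähler
manifold, and if `K_B` is semiample at the points of `Z`, then `K_X` is semiample for every `X` as above
with `K_X ^ m = h^* (K_A ^ m ⊗ O(D))`.

For example, (3) applies to the smooth complete intersections `X = D_1 ∩ ... ∩ D_r` in `A`, with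
`D = D_1 + ... + D_r` and `m = 1`, to the manifolds `X` over `A` which are ramified over the components of a
divisor with multiplicities `e_i`, since `K_X = h^* (K_A + ∑ (1 - 1 / e_i) D_i)`, and to the crepant
resolutions of such complete intersections and coverings. The dimension of `X` and its Kodaira dimension
are arbitrary.

Idea of the proof of (1). The translate of `D` by a torsion point of the fibres of order `d` is a divisor
`D'` over a covering of `B`, and `2 d D'` is linearly equivalent to `2 d D` if the linear equivalence
is normalized by means of the flat structure of the family. The powers `T ^ K` of the corresponding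
sections `T` of `O(2 d D)` over the `d ^ (2 g)` points of order `d` have a sum which is a global
section of `O(2 d K D)`. Since the torsion points are dense, at a given point of `A` not all `T` are
zero, if `d` is suitable, and then a power sum does not vanish for suitable `K`.
-/

set_option autoImplicit false

universe u v w x

namespace Pool.Agent.Results.MP_97d78d_ag.TorusFibrationDivisors

open H18.TF
open scoped Manifold ContDiff

/-- Let `A → B` be a smooth family of complex tori of dimension `g` over the complex manifold `B`, let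
`D` be an effective divisor on `A` which does not contain a fibre, and let `Z` be a compact subset of
`B`. There is `N ≥ 1` with the following properties.

(1) The line bundle `O(D) ^ N` is generated by its global sections at all points of `A` over `Z`.

(2) Let `h : X → A` be a holomorphic map from a complex manifold `X` to `A` with image over `Z`, and let
`τ` be an isomorphism of `h^* (M ⊗ O(D))` and `K_X ^ m`, where `m ≥ 1` and `M` is a line bundle on `B`.
If `M ^ N'` is generated by its global sections at the points of `Z`, then `K_X ^ (m N N')` is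
globally generated.

(3) Suppose that `B` is connected and that the family has a real polarization. There is `N₀ ≥ 1` such
that, for `h` as in (2) and an isomorphism `τ` of `h^* (K_A ^ m ⊗ O(D))` and `K_X ^ m`, if `K_B ^ N'` is
generated by its global sections at the points of `Z`, then `K_X ^ (m N N₀ N')` is globally
generated. -/
theorem result {n g : ℕ} {B : Type u} [TopologicalSpace B] [ChartedSpace (Fin n → ℂ) B]
    [IsManifold 𝓘(ℂ, Fin n → ℂ) ω B] {ι : Type v} (Y : TorusBundle n B g ι) (D : Y.Divisor)
    {Z : Set B} (hZ : IsCompact Z) :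
    ∃ N : ℕ, 1 ≤ N ∧
      (∀ p ∈ Z, ∀ i, p ∈ Y.U i → ∀ v, ∃ G, D.IsSection N G ∧ G i p v ≠ 0) ∧
      (∀ (k : ℕ) (X : Type w) [TopologicalSpace X] [ChartedSpace (Fin k → ℂ) X]
        [IsManifold 𝓘(ℂ, Fin k → ℂ) ω X] (κ : Type x) (h : TorusMap Y k X κ) (μ : ι → ι → B → ℂ)
        (m : ℕ) (τ : κ → OpenPartialHomeomorph X (Fin k → ℂ) → X → ℂ),
        1 ≤ m → h.IsAdjunction μ D m τ → (∀ x, h.π x ∈ Z) → ∀ N' : ℕ, 1 ≤ N' →
        (∀ p ∈ Z, ∃ s, Y.IsSectionOf μ N' s ∧ ∀ i, p ∈ Y.U i → s i p ≠ 0) →
        IsGloballyGenerated k X (m * N * N')) ∧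
      (∀ [ConnectedSpace B] (Ω : ι → B → Matrix (Fin (2 * g)) (Fin (2 * g)) ℝ),
        Y.IsPolarization Ω → ∃ N₀ : ℕ, 1 ≤ N₀ ∧
        ∀ (k : ℕ) (X : Type w) [TopologicalSpace X] [ChartedSpace (Fin k → ℂ) X]
        [IsManifold 𝓘(ℂ, Fin k → ℂ) ω X] (κ : Type x) (h : TorusMap Y k X κ)
        (m : ℕ) (τ : κ → OpenPartialHomeomorph X (Fin k → ℂ) → X → ℂ),
        1 ≤ m → h.IsAdjunction (Y.canonical m) D m τ → (∀ x, h.π x ∈ Z) → ∀ N' : ℕ, 1 ≤ N' →
        (∀ p ∈ Z, ∃ σ, IsCanonicalForm n B N' σ ∧ σ (chartAt (Fin n → ℂ) p) p ≠ 0) →
        IsGloballyGenerated k X (m * N * (N₀ * N'))) := by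
  obtain ⟨N, hN, hG⟩ := D.exists_power hZ
  refine ⟨N, hN, hG, fun k X _ _ _ κ h μ m τ _ hτ hπ N' _ hM =>
    isGloballyGenerated_div hτ hπ hG hM, fun Ω hΩ => ?_⟩
  obtain ⟨N₀, hN₀, hs⟩ := hΩ.exists_power_compact hZ
  refine ⟨N₀, hN₀, fun k X _ _ _ κ h m τ _ hτ hπ N' _ hB =>
    isGloballyGenerated_div hτ hπ hG fun p hp => ?_⟩
  obtain ⟨s, hs, hne⟩ := hs p hp
  obtain ⟨σ, hσ, hneσ⟩ := hB p hp
  refine ⟨_, isSectionOf_canonical hs hσ m, fun i hi => mul_ne_zero (pow_ne_zero _ (hne i hi))
    (pow_ne_zero _ fun h0 => hneσ ?_)⟩
  rw [← hσ.eq _ (Y.mem_atlas i) _ (chart_mem_atlas _ _) p ⟨hi, mem_chart_source _ _⟩, h0, zero_mul]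

end Pool.Agent.Results.MP_97d78d_ag.TorusFibrationDivisors
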